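import Mathlib
import Pool.Agent.Q10.SkewLaurent
import Pool.Agent.Q10.RegularLaurent

/-!
# Von Neumann regular skew Laurent series rings are Artinian
-/

namespace Pool.Agent.Results.MP_20d9b9_al.RegularArtinian

/-- A ring is (von Neumann) regular if for every `r` there is `s` with `r = r s r`. -/
def IsVNRegularRing (R : Type*) [Ring R] : Prop := ∀ r : R, ∃ s : R, r = r * s * r

/-- If the skew Laurent series ring `A((x, φ))` is von Neumann regular then it is semisimple
Artinian; in particular it is left and right Artinian. -/
theorem result : ∀ (A : Type*) [Ring A] (φ : A ≃+* A), IsVNRegularRing (Q10.SkewLaurent φ) →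
    IsSemisimpleRing (Q10.SkewLaurent φ) ∧ IsArtinianRing (Q10.SkewLaurent φ) ∧
      IsArtinianRing (Q10.SkewLaurent φ)ᵐᵒᵖ := by
  intro A _ φ h
  have h1 : IsSemisimpleRing (Q10.SkewLaurent φ) := Q10.semisimple_of_regular_laurent h
  exact ⟨h1, inferInstance, inferInstance⟩

end Pool.Agent.Results.MP_20d9b9_al.RegularArtinian
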